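import Mathlib

set_option autoImplicit false

/-!
If the class of `1` modulo each product `d` of `u` primes of `Q` contains many primes, then for some
`k` many of the numbers `d k + 1` are primes.
-/

namespace Pool.Agent.N919.AGP

open Finset

/-- the good sets for `k` -/
def Fam (Q : Finset ℕ) (u z Z k : ℕ) : Finset (Finset ℕ) :=
  (Q.powersetCard u).filter (fun T => ((∏ q ∈ T, q) * k + 1).Prime ∧ z < (∏ q ∈ T, q) * k + 1 ∧
    (∏ q ∈ T, q) * k + 1 ≤ Z)

lemma prod_pos_of {Q T : Finset ℕ} (hQ : ∀ q ∈ Q, q.Prime) (hT : T ⊆ Q) : 0 < ∏ q ∈ T, q :=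
  prod_pos fun q hq => (hQ q (hT hq)).pos

lemma sum_inv_le (n : ℕ) : ∑ k ∈ Icc 1 n, (1 : ℝ) / k ≤ 1 + Real.log n := by
  have h := harmonic_le_one_add_log n
  refine le_trans (le_of_eq ?_) h
  rw [harmonic_eq_sum_Icc]
  push_cast
  exact sum_congr rfl fun k _ => by rw [one_div]

theorem choose_k {Q : Finset ℕ} {t u z Z : ℕ} {lo c : ℝ} (hlo : 0 < lo) (hc : 0 ≤ c)
    (hQ : ∀ q ∈ Q, q.Prime) (hQlo : ∀ q ∈ Q, lo < (q : ℝ)) (hQt : ∀ q ∈ Q, q ≤ t)
    (hZ : 1 ≤ Z) (hu : u ≤ Q.card)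
    (hpage : ∀ T ∈ Q.powersetCard u, c / ((∏ q ∈ T, q : ℕ) : ℝ) ≤
      ∑ p ∈ (Ioc z Z).filter (fun p => p.Prime ∧ p ≡ 1 [MOD ∏ q ∈ T, q]), (1 : ℝ) / p) :
    ∃ k : ℕ, 1 ≤ k ∧ k ≤ Z ∧
      c * (Q.card.choose u : ℝ) * lo ^ u ≤ (t : ℝ) ^ u * (1 + Real.log Z) *
        ((Fam Q u z Z k).card : ℝ) := by
  classical
  by_contra hcon
  push Not at hcon
  have hlogZ : 0 ≤ Real.log Z := Real.log_nonneg (by exact_mod_cast hZ)
  have hH : 0 < 1 + Real.log Z := by linarith
  -- upper bound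
  have hup : ∑ k ∈ Icc 1 Z, ((t : ℝ) ^ u * (1 + Real.log Z) * ((Fam Q u z Z k).card : ℝ)) * (1 / k) <
      ∑ k ∈ Icc 1 Z, (c * (Q.card.choose u : ℝ) * lo ^ u) * (1 / k) := by
    apply sum_lt_sum_of_nonempty
    · exact ⟨1, mem_Icc.2 ⟨le_rfl, hZ⟩⟩
    · intro k hk
      rw [mem_Icc] at hk
      have hk0 : (0 : ℝ) < 1 / k := by
        have : (0 : ℝ) < k := by exact_mod_cast hk.1
        positivity
      exact mul_lt_mul_of_pos_right (hcon k hk.1 hk.2) hk0
  have hup2 : ∑ k ∈ Icc 1 Z, (c * (Q.card.choose u : ℝ) * lo ^ u) * (1 / (k : ℝ)) ≤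
      (c * (Q.card.choose u : ℝ) * lo ^ u) * (1 + Real.log Z) := by
    rw [← mul_sum]
    exact mul_le_mul_of_nonneg_left (sum_inv_le Z) (by positivity)
  have hup3 : ∑ k ∈ Icc 1 Z, ((t : ℝ) ^ u * (1 + Real.log Z) * ((Fam Q u z Z k).card : ℝ)) * (1 / k) =
      (1 + Real.log Z) * ((t : ℝ) ^ u * ∑ k ∈ Icc 1 Z, ((Fam Q u z Z k).card : ℝ) * (1 / k)) := by
    rw [mul_sum, mul_sum]
    exact sum_congr rfl fun k _ => by ring
  rw [hup3] at hup
  have hup4 : (t : ℝ) ^ u * ∑ k ∈ Icc 1 Z, ((Fam Q u z Z k).card : ℝ) * (1 / k) <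
      c * (Q.card.choose u : ℝ) * lo ^ u := by
    have := lt_of_lt_of_le hup hup2
    rw [mul_comm (c * (Q.card.choose u : ℝ) * lo ^ u)] at this
    exact lt_of_mul_lt_mul_left this hH.le
  -- lower bound
  have hinner : ∀ T ∈ Q.powersetCard u,
      ∑ p ∈ (Ioc z Z).filter (fun p => p.Prime ∧ p ≡ 1 [MOD ∏ q ∈ T, q]), (1 : ℝ) / p ≤
      ∑ k ∈ Icc 1 Z, (if T ∈ Fam Q u z Z k then (1 / lo ^ u) * (1 / (k : ℝ)) else 0) := by
    intro T hT
    have hT' := mem_powersetCard.1 hT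
    set d := ∏ q ∈ T, q with hd
    have hd0 : 0 < d := prod_pos_of hQ hT'.1
    have hdlo : lo ^ u ≤ (d : ℝ) := by
      rw [hd, Nat.cast_prod, ← hT'.2, ← prod_const]
      exact prod_le_prod (fun _ _ => hlo.le) fun q hq => (hQlo q (hT'.1 hq)).le
    rw [← sum_filter]
    have hinj : Set.InjOn (fun p => (p - 1) / d)
        (((Ioc z Z).filter (fun p => p.Prime ∧ p ≡ 1 [MOD d]) : Finset ℕ) : Set ℕ) := by
      intro p hp p' hp' h
      rw [mem_coe, mem_filter] at hp hp'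
      obtain ⟨a, ha⟩ := (Nat.modEq_iff_dvd' hp.2.1.one_lt.le).1 hp.2.2.symm
      obtain ⟨b, hb⟩ := (Nat.modEq_iff_dvd' hp'.2.1.one_lt.le).1 hp'.2.2.symm
      simp only at h
      rw [ha, hb, Nat.mul_div_cancel_left _ hd0, Nat.mul_div_cancel_left _ hd0] at h
      have h1 := hp.2.1.one_lt
      have h2 := hp'.2.1.one_lt
      rw [h] at ha
      omega
    have himg : ((Ioc z Z).filter (fun p => p.Prime ∧ p ≡ 1 [MOD d])).image (fun p => (p - 1) / d) ⊆
        (Icc 1 Z).filter (fun k => T ∈ Fam Q u z Z k) := by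
      intro k hk
      rw [mem_image] at hk
      obtain ⟨p, hp, rfl⟩ := hk
      rw [mem_filter, mem_Ioc] at hp
      obtain ⟨a, ha⟩ := (Nat.modEq_iff_dvd' hp.2.1.one_lt.le).1 hp.2.2.symm
      have h1 := hp.2.1.one_lt
      rw [ha, Nat.mul_div_cancel_left _ hd0]
      have hpa : d * a + 1 = p := by omega
      have ha0 : 1 ≤ a := by
        rcases Nat.eq_zero_or_pos a with h0 | h0
        · subst h0; omega
        · exact h0
      rw [mem_filter, mem_Icc]
      refine ⟨⟨ha0, ?_⟩, ?_⟩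
      · have : a ≤ d * a := Nat.le_mul_of_pos_left a hd0
        omega
      · unfold Fam
        rw [mem_filter, ← hd, hpa]
        exact ⟨hT, hp.2.1, hp.1.1, hp.1.2⟩
    calc ∑ p ∈ (Ioc z Z).filter (fun p => p.Prime ∧ p ≡ 1 [MOD d]), (1 : ℝ) / p
        ≤ ∑ p ∈ (Ioc z Z).filter (fun p => p.Prime ∧ p ≡ 1 [MOD d]),
            (1 / lo ^ u) * (1 / (((p - 1) / d : ℕ) : ℝ)) := by
          apply sum_le_sum
          intro p hp
          rw [mem_filter, mem_Ioc] at hp
          obtain ⟨a, ha⟩ := (Nat.modEq_iff_dvd' hp.2.1.one_lt.le).1 hp.2.2.symm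
          have h1 := hp.2.1.one_lt
          rw [ha, Nat.mul_div_cancel_left _ hd0]
          have hpa : d * a + 1 = p := by omega
          have ha0 : 1 ≤ a := by
            rcases Nat.eq_zero_or_pos a with h0 | h0
            · subst h0; omega
            · exact h0
          have ha0' : (0 : ℝ) < a := by exact_mod_cast ha0
          rw [div_mul_div_comm, one_mul, one_div_le_one_div
            (by exact_mod_cast hp.2.1.pos) (by positivity)]
          rw [← hpa]
          push_cast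
          nlinarith [mul_le_mul_of_nonneg_right hdlo ha0'.le]
      _ = ∑ k ∈ ((Ioc z Z).filter (fun p => p.Prime ∧ p ≡ 1 [MOD d])).image (fun p => (p - 1) / d),
            (1 / lo ^ u) * (1 / (k : ℝ)) := by
          rw [sum_image hinj]
      _ ≤ _ := by
          apply sum_le_sum_of_subset_of_nonneg himg
          intro k _ _
          positivity
  have hlow1 : c * (Q.card.choose u : ℝ) / (t : ℝ) ^ u ≤
      ∑ T ∈ Q.powersetCard u, c / ((∏ q ∈ T, q : ℕ) : ℝ) := by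
    have h1 : ∀ T ∈ Q.powersetCard u, c / (t : ℝ) ^ u ≤ c / ((∏ q ∈ T, q : ℕ) : ℝ) := by
      intro T hT
      have hT' := mem_powersetCard.1 hT
      have hd0 : 0 < ∏ q ∈ T, q := prod_pos_of hQ hT'.1
      apply div_le_div_of_nonneg_left hc (by exact_mod_cast hd0)
      rw [← Nat.cast_pow, Nat.cast_le, ← hT'.2]
      exact prod_le_pow_card _ _ _ fun q hq => hQt q (hT'.1 hq)
    calc c * (Q.card.choose u : ℝ) / (t : ℝ) ^ u
        = ∑ T ∈ Q.powersetCard u, c / (t : ℝ) ^ u := by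
          rw [sum_const, card_powersetCard, nsmul_eq_mul]; ring
      _ ≤ _ := sum_le_sum h1
  have hlow2 : ∑ T ∈ Q.powersetCard u, c / ((∏ q ∈ T, q : ℕ) : ℝ) ≤
      (1 / lo ^ u) * ∑ k ∈ Icc 1 Z, ((Fam Q u z Z k).card : ℝ) * (1 / k) := by
    calc _ ≤ ∑ T ∈ Q.powersetCard u,
          ∑ k ∈ Icc 1 Z, (if T ∈ Fam Q u z Z k then (1 / lo ^ u) * (1 / (k : ℝ)) else 0) :=
          sum_le_sum fun T hT => (hpage T hT).trans (hinner T hT)
      _ = ∑ k ∈ Icc 1 Z, ∑ T ∈ Q.powersetCard u,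
          (if T ∈ Fam Q u z Z k then (1 / lo ^ u) * (1 / (k : ℝ)) else 0) := sum_comm
      _ = ∑ k ∈ Icc 1 Z, (1 / lo ^ u) * (((Fam Q u z Z k).card : ℝ) * (1 / k)) := by
          apply sum_congr rfl
          intro k _
          rw [← sum_filter, sum_const, nsmul_eq_mul]
          have : (Q.powersetCard u).filter (fun T => T ∈ Fam Q u z Z k) = Fam Q u z Z k := by
            ext T
            rw [mem_filter]
            constructor
            · exact fun h => h.2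
            · intro h
              refine ⟨?_, h⟩
              unfold Fam at h
              exact (mem_filter.1 h).1
          rw [this]
          ring
      _ = _ := by rw [mul_sum]
  -- conclusion
  obtain ⟨T0, hT0⟩ := powersetCard_nonempty.2 hu
  have ht0 : (0 : ℝ) < (t : ℝ) ^ u := by
    rcases Nat.eq_zero_or_pos u with h0 | h0
    · subst h0; simp
    · have hT' := mem_powersetCard.1 hT0
      have : T0.Nonempty := by
        rw [← card_pos, hT'.2]; exact h0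
      obtain ⟨q, hq⟩ := this
      have h1 := hQt q (hT'.1 hq)
      have h2 := (hQ q (hT'.1 hq)).pos
      have h3 : 0 < t := by omega
      positivity
  have h1 := hlow1.trans hlow2
  rw [div_le_iff₀ ht0] at h1
  have hlou : 0 < lo ^ u := by positivity
  have h2 : c * (Q.card.choose u : ℝ) * lo ^ u ≤
      (t : ℝ) ^ u * ∑ k ∈ Icc 1 Z, ((Fam Q u z Z k).card : ℝ) * (1 / k) := by
    calc c * (Q.card.choose u : ℝ) * lo ^ u ≤
        ((1 / lo ^ u) * (∑ k ∈ Icc 1 Z, ((Fam Q u z Z k).card : ℝ) * (1 / k)) * (t : ℝ) ^ u) *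
          lo ^ u := mul_le_mul_of_nonneg_right h1 hlou.le
      _ = _ := by field_simp
  linarith

end Pool.Agent.N919.AGP
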