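import Pool.Agent.N919.AGP.Dav
import Pool.Agent.N919.AGP.ChooseK

set_option autoImplicit false

/-!
The Carmichael numbers coming from a large family of primes `d k + 1`.
-/

namespace Pool.Agent.N919.AGP

open Finset

lemma prod_inj {T T' : Finset ℕ} (hT : ∀ q ∈ T, q.Prime) (hT' : ∀ q ∈ T', q.Prime)
    (h : ∏ q ∈ T, q = ∏ q ∈ T', q) : T = T' := by
  rw [← Nat.primeFactors_prod hT, h, Nat.primeFactors_prod hT']

lemma exp_units {L M : ℕ} [NeZero L] {P : Finset ℕ} (hP : ∀ q ∈ P, q.Prime)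
    (hL : L = ∏ q ∈ P, q) (hM : ∀ q ∈ P, q - 1 ∣ M) (g : (ZMod L)ˣ) : g ^ M = 1 := by
  have hcop : Nat.Coprime (g : ZMod L).val L := ZMod.val_coe_unit_coprime g
  have h1 : (g : ZMod L).val ^ M ≡ 1 [MOD L] := by
    have hpos : 1 ≤ (g : ZMod L).val ^ M ∨ L = 1 := by
      rcases Nat.eq_zero_or_pos (g : ZMod L).val with h0 | h0
      · right
        rw [h0, Nat.coprime_zero_left] at hcop
        exact hcop
      · left
        exact Nat.one_le_pow _ _ h0
    rcases hpos with hpos | hL1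
    · apply Nat.ModEq.symm
      rw [Nat.modEq_iff_dvd' hpos]
      conv_lhs => rw [hL]
      apply Finset.prod_primes_dvd
      · exact fun q hq => (hP q hq).prime
      · intro q hq
        rw [← Nat.modEq_iff_dvd' hpos]
        apply Nat.ModEq.symm
        obtain ⟨e, he⟩ := hM q hq
        have h2 : Nat.Coprime (g : ZMod L).val q := by
          apply Nat.Coprime.coprime_dvd_right _ hcop
          rw [hL]
          exact dvd_prod_of_mem _ hq
        have h3 := Nat.ModEq.pow_totient h2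
        rw [Nat.totient_prime (hP q hq)] at h3
        rw [he, pow_mul]
        simpa using h3.pow e
    · have hall : ∀ x : ℕ, x ≡ 1 [MOD L] := by
        intro x
        rw [hL1]
        exact Nat.modEq_one
      exact hall _
  apply Units.ext
  rw [Units.val_pow_eq_pow_val, Units.val_one, ← ZMod.natCast_zmod_val (g : ZMod L)]
  have h2 := (ZMod.natCast_eq_natCast_iff _ _ _).2 h1
  push_cast at h2
  exact h2

theorem carm_of_fam {Q : Finset ℕ} {t u z Z k M B : ℕ} (hQ : ∀ q ∈ Q, q.Prime)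
    (hQt : ∀ q ∈ Q, q ≤ t) (hQM : ∀ q ∈ Q, q - 1 ∣ M) (hM : 0 < M) (htz : t ≤ z) (hk : 1 ≤ k)
    (hB : (M : ℝ) * Real.log ((∏ q ∈ Q, q : ℕ) : ℝ) < B)
    (hbig : 2 ^ (Q.filter (fun q => q ∣ k)).card * B ≤ (Fam Q u z Z k).card)
    (hlarge : u + (Q.filter (fun q => q ∣ k)).card < Q.card) :
    ∃ S : Finset ℕ, 2 ≤ S.card ∧ S.card ≤ B ∧ (∀ p ∈ S, p.Prime ∧ z < p) ∧
      ∀ p ∈ S, p - 1 ∣ (∏ q ∈ S, q) - 1 := by
  classical
  set R := Q.filter (fun q => q ∣ k) with hR
  have hRQ : R ⊆ Q := filter_subset _ _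
  obtain ⟨R0, hR0, hcard0⟩ := Finset.exists_le_card_fiber_of_mul_le_card_of_maps_to
    (s := Fam Q u z Z k) (t := R.powerset) (f := fun T => T ∩ R) (n := B)
    (fun T _ => mem_powerset.2 inter_subset_right) ⟨∅, empty_mem_powerset _⟩
    (by rw [card_powerset]; exact hbig)
  rw [mem_powerset] at hR0
  obtain ⟨F, hF, hFcard⟩ := Finset.exists_subset_card_eq hcard0
  have hFmem : ∀ T ∈ F, T ∈ Fam Q u z Z k ∧ T ∩ R = R0 := fun T hT => by
    have := hF hT
    rwa [mem_filter] at this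
  -- the modulus
  set L := ∏ q ∈ Q \ R, q with hL
  have hQRprime : ∀ q ∈ Q \ R, q.Prime := fun q hq => hQ q (mem_sdiff.1 hq).1
  have hL0 : 0 < L := prod_pos fun q hq => (hQRprime q hq).pos
  have : NeZero L := ⟨hL0.ne'⟩
  set g : Finset ℕ → ℕ := fun T => (∏ q ∈ T, q) * k + 1 with hg
  have hTsub : ∀ T ∈ F, T ⊆ Q ∧ T.card = u := fun T hT => by
    have := (hFmem T hT).1
    unfold Fam at this
    exact mem_powersetCard.1 (mem_filter.1 this).1
  have hgprime : ∀ T ∈ F, (g T).Prime ∧ z < g T := fun T hT => by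
    have := (hFmem T hT).1
    unfold Fam at this
    have h2 := (mem_filter.1 this).2
    exact ⟨h2.1, h2.2.1⟩
  have hgcop : ∀ T ∈ F, Nat.Coprime (g T) L := by
    intro T hT
    rw [hL]
    apply Nat.Coprime.prod_right
    intro q hq
    rw [Nat.coprime_primes (hgprime T hT).1 (hQRprime q hq)]
    have h1 := hQt q (mem_sdiff.1 hq).1
    have h2 := (hgprime T hT).2
    omega
  set f : Finset ℕ → (ZMod L)ˣ := fun T =>
    if h : Nat.Coprime (g T) L then ZMod.unitOfCoprime (g T) h else 1 with hf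
  have hlog : Real.log (Fintype.card (ZMod L)ˣ) ≤ Real.log ((∏ q ∈ Q, q : ℕ) : ℝ) := by
    rw [ZMod.card_units_eq_totient]
    apply Real.log_le_log
    · exact_mod_cast Nat.totient_pos.2 hL0
    · have h1 : L ≤ ∏ q ∈ Q, q := by
        apply Nat.le_of_dvd (prod_pos fun q hq => (hQ q hq).pos)
        exact prod_dvd_prod_of_subset _ _ _ sdiff_subset
      exact_mod_cast (Nat.totient_le L).trans h1
  obtain ⟨W, hWF, hWne, hWprod⟩ := prod_one (G := (ZMod L)ˣ) hM
    (exp_units hQRprime hL fun q hq => hQM q (mem_sdiff.1 hq).1) f F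
    (by
      rw [hFcard]
      refine lt_of_le_of_lt ?_ hB
      exact mul_le_mul_of_nonneg_left hlog (by positivity))
  have hginj : Set.InjOn g (W : Set (Finset ℕ)) := by
    intro T hT T' hT' h
    rw [mem_coe] at hT hT'
    simp only [hg] at h
    have h1 : (∏ q ∈ T, q) * k = (∏ q ∈ T', q) * k := by omega
    have h2 := Nat.eq_of_mul_eq_mul_right hk h1
    exact prod_inj (fun q hq => hQ q ((hTsub T (hWF hT)).1 hq))
      (fun q hq => hQ q ((hTsub T' (hWF hT')).1 hq)) h2
  -- n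
  set n := ∏ T ∈ W, g T with hn
  have hn1 : 1 ≤ n := prod_pos fun T hT => (hgprime T (hWF hT)).1.pos
  have hnL : n ≡ 1 [MOD L] := by
    have h1 : ((∏ T ∈ W, f T : (ZMod L)ˣ) : ZMod L) = 1 := by rw [hWprod]; rfl
    rw [Units.coe_prod] at h1
    rw [← ZMod.natCast_eq_natCast_iff, hn, Nat.cast_prod, Nat.cast_one, ← h1]
    apply prod_congr rfl
    intro T hT
    rw [hf]
    simp only
    rw [dif_pos (hgcop T (hWF hT)), ZMod.coe_unitOfCoprime]
  set k' := (∏ q ∈ R0, q) * k with hk'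
  have hsplit : ∀ T ∈ F, (∏ q ∈ T, q) * k = (∏ q ∈ T \ R0, q) * k' := by
    intro T hT
    have h1 : R0 ⊆ T := by rw [← (hFmem T hT).2]; exact inter_subset_left
    rw [hk', ← mul_assoc, prod_sdiff h1]
  have hsub : ∀ T ∈ F, T \ R0 ⊆ Q \ R := by
    intro T hT q hq
    rw [mem_sdiff] at hq ⊢
    refine ⟨(hTsub T hT).1 hq.1, fun hqR => hq.2 ?_⟩
    rw [← (hFmem T hT).2]
    exact mem_inter.2 ⟨hq.1, hqR⟩
  have hnk : n ≡ 1 [MOD k'] := by
    rw [hn]
    have : ∀ V : Finset (Finset ℕ), V ⊆ F → ∏ T ∈ V, g T ≡ 1 [MOD k'] := by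
      intro V
      induction V using Finset.induction_on with
      | empty => intro _; simp [Nat.ModEq.refl]
      | insert T V hTV ih =>
        intro hV
        rw [prod_insert hTV]
        have h1 : g T ≡ 1 [MOD k'] := by
          rw [hg]
          simp only
          rw [hsplit T (hV (mem_insert_self _ _))]
          apply Nat.ModEq.symm
          rw [Nat.modEq_iff_dvd' (by omega), Nat.add_sub_cancel]
          exact dvd_mul_left _ _
        have h2 := h1.mul (ih fun x hx => hV (mem_insert_of_mem hx))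
        simpa using h2
    exact this W hWF
  have hkL : Nat.Coprime k' L := by
    rw [hL]
    apply Nat.Coprime.prod_right
    intro q hq
    apply Nat.Coprime.symm
    rw [Nat.Prime.coprime_iff_not_dvd (hQRprime q hq), hk', (hQRprime q hq).dvd_mul]
    rintro (h1 | h1)
    · rw [Prime.dvd_finsetProd_iff (hQRprime q hq).prime] at h1
      obtain ⟨r, hr, hqr⟩ := h1
      have h2 := (Nat.prime_dvd_prime_iff_eq (hQRprime q hq) (hQ r (hRQ (hR0 hr)))).1 hqr
      rw [mem_sdiff] at hq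
      exact hq.2 (h2 ▸ hR0 hr)
    · rw [mem_sdiff, hR, mem_filter] at hq
      exact hq.2 ⟨hq.1, h1⟩
  have hkLn : k' * L ∣ n - 1 := by
    apply Nat.Coprime.mul_dvd_of_dvd_of_dvd hkL
    · exact (Nat.modEq_iff_dvd' hn1).1 hnk.symm
    · exact (Nat.modEq_iff_dvd' hn1).1 hnL.symm
  have hcardW : (W.image g).card = W.card := card_image_of_injOn hginj
  refine ⟨W.image g, ?_, ?_, ?_, ?_⟩
  · rw [hcardW]
    by_contra hlt
    have h1 : W.card = 1 := by
      have := card_pos.2 hWne
      omega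
    obtain ⟨T, hT⟩ := card_eq_one.1 h1
    have hTW : T ∈ F := hWF (by rw [hT]; exact mem_singleton_self _)
    have hnT : n = g T := by rw [hn, hT, prod_singleton]
    have h2 : L ∣ (∏ q ∈ T, q) * k := by
      have h3 := (Nat.modEq_iff_dvd' hn1).1 hnL.symm
      rw [hnT] at h3
      simpa [hg] using h3
    have h3 : Nat.Coprime L k := by
      apply Nat.Coprime.symm
      exact Nat.Coprime.coprime_dvd_left (dvd_mul_left _ _) hkL
    have h4 : L ∣ ∏ q ∈ T, q := h3.dvd_of_dvd_mul_right h2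
    have h5 : Q \ R ⊆ T := by
      intro q hq
      have h6 : q ∣ ∏ q ∈ T, q := (dvd_prod_of_mem (fun q => q) hq).trans h4
      rw [Prime.dvd_finsetProd_iff (hQRprime q hq).prime] at h6
      obtain ⟨r, hr, hqr⟩ := h6
      rw [(Nat.prime_dvd_prime_iff_eq (hQRprime q hq) (hQ r ((hTsub T hTW).1 hr))).1 hqr]
      exact hr
    have h6 := card_le_card h5
    rw [card_sdiff_of_subset hRQ, (hTsub T hTW).2] at h6
    omega
  · rw [hcardW, ← hFcard]
    exact card_le_card hWF
  · intro p hp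
    rw [mem_image] at hp
    obtain ⟨T, hT, rfl⟩ := hp
    exact hgprime T (hWF hT)
  · intro p hp
    rw [mem_image] at hp
    obtain ⟨T, hT, rfl⟩ := hp
    rw [prod_image hginj, ← hn]
    have h1 : g T - 1 = (∏ q ∈ T \ R0, q) * k' := by
      rw [← hsplit T (hWF hT)]; simp [hg]
    rw [h1]
    refine dvd_trans ?_ hkLn
    rw [mul_comm]
    exact Nat.mul_dvd_mul_left _ (prod_dvd_prod_of_subset _ _ _ (hsub T (hWF hT)))

end Pool.Agent.N919.AGP
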