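import Mathlib

set_option autoImplicit false

/-!
A bound for the Davenport constant of a finite abelian group of exponent dividing `M`
(van Emde Boas and Kruyswijk, Meshulam; the proof by characters).
-/

namespace Pool.Agent.N919.AGP

open Finset

lemma step {A : Type*} [AddCommGroup A] [Fintype A] {M : ℕ} (hM : 0 < M)
    (hexp : ∀ g : A, M • g = 0) (X : Finset (AddChar A ℂ)) (g : A) :
    ∃ a : ℂ, a ≠ 0 ∧ ((X.filter (fun χ => χ g ≠ a)).card : ℝ) ≤ (1 - 1 / (M : ℝ)) * X.card := by
  classical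
  have hM' : (0 : ℝ) < M := by exact_mod_cast hM
  have hroot : ∀ χ ∈ X, χ g ∈ Polynomial.nthRootsFinset M (1 : ℂ) := by
    intro χ _
    rw [Polynomial.mem_nthRootsFinset hM, ← AddChar.map_nsmul_eq_pow, hexp,
      AddChar.map_zero_eq_one]
  have hne : (Polynomial.nthRootsFinset M (1 : ℂ)).Nonempty :=
    ⟨1, by rw [Polynomial.mem_nthRootsFinset hM, one_pow]⟩
  have hcardle : (Polynomial.nthRootsFinset M (1 : ℂ)).card ≤ M := by
    unfold Polynomial.nthRootsFinset
    exact (Multiset.toFinset_card_le _).trans (Polynomial.card_nthRoots M 1)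
  obtain ⟨a, ha, hcard⟩ := Finset.exists_le_card_fiber_of_nsmul_le_card_of_maps_to
    (M := ℝ) (b := (X.card : ℝ) / M) hroot hne (by
      rw [nsmul_eq_mul]
      calc ((Polynomial.nthRootsFinset M (1 : ℂ)).card : ℝ) * ((X.card : ℝ) / M)
          ≤ M * ((X.card : ℝ) / M) := by
            apply mul_le_mul_of_nonneg_right _ (by positivity)
            exact_mod_cast hcardle
        _ = X.card := by field_simp)
  refine ⟨a, ?_, ?_⟩
  · rintro rfl
    rw [Polynomial.mem_nthRootsFinset hM, zero_pow hM.ne'] at ha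
    exact zero_ne_one ha
  · have h1 := Finset.card_filter_add_card_filter_not (s := X) (fun χ => χ g = a)
    have h2 : ((X.filter (fun χ => χ g = a)).card : ℝ) +
        ((X.filter (fun χ => ¬ χ g = a)).card : ℝ) = X.card := by exact_mod_cast h1
    have h3 : (1 - 1 / (M : ℝ)) * X.card = X.card - X.card / M := by ring
    rw [h3]
    simp only [ne_eq]
    linarith

/-- the character `χ` avoids the values `a` -/
def Av {A : Type*} [AddCommGroup A] {ι : Type*} (f : ι → A) (s : Finset ι) (a : ι → ℂ)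
    (χ : AddChar A ℂ) : Prop := ∀ i ∈ s, χ (f i) ≠ a i

open Classical in
lemma chain {A : Type*} [AddCommGroup A] [Fintype A] {M : ℕ} (hM : 0 < M)
    (hexp : ∀ g : A, M • g = 0) {ι : Type*} [DecidableEq ι] (f : ι → A) (s : Finset ι) :
    ∃ a : ι → ℂ, (∀ i, a i ≠ 0) ∧
      (((univ : Finset (AddChar A ℂ)).filter (Av f s a)).card : ℝ) ≤
        (1 - 1 / (M : ℝ)) ^ s.card * Fintype.card A := by
  induction s using Finset.induction_on with
  | empty =>
    refine ⟨fun _ => 1, fun _ => one_ne_zero, ?_⟩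
    rw [card_empty, pow_zero, one_mul, Nat.cast_le]
    calc _ ≤ (univ : Finset (AddChar A ℂ)).card := card_le_card (filter_subset _ _)
      _ = Fintype.card A := by
        rw [card_univ]
        exact AddChar.card_eq
  | insert i s hi ih =>
    obtain ⟨a, ha, hc⟩ := ih
    obtain ⟨b, hb, hc2⟩ := step hM hexp
      ((univ : Finset (AddChar A ℂ)).filter (Av f s a)) (f i)
    refine ⟨Function.update a i b, ?_, ?_⟩
    · intro j
      by_cases hj : j = i
      · subst hj; simpa using hb
      · simpa [Function.update_of_ne hj] using ha j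
    · have hsub : ((univ : Finset (AddChar A ℂ)).filter
          (Av f (insert i s) (Function.update a i b))) ⊆
          ((univ : Finset (AddChar A ℂ)).filter (Av f s a)).filter
            (fun χ => χ (f i) ≠ b) := by
        intro χ hχ
        rw [mem_filter] at hχ
        rw [mem_filter, mem_filter]
        refine ⟨⟨mem_univ _, fun j hj => ?_⟩, ?_⟩
        · have h1 := hχ.2 j (mem_insert_of_mem hj)
          have hji : j ≠ i := fun h => hi (h ▸ hj)
          rwa [Function.update_of_ne hji] at h1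
        · have h1 := hχ.2 i (mem_insert_self _ _)
          rwa [Function.update_self] at h1
      have hM1 : (0 : ℝ) ≤ 1 - 1 / (M : ℝ) := by
        have : (1 : ℝ) ≤ M := by exact_mod_cast hM
        have h2 : 1 / (M : ℝ) ≤ 1 := by
          rw [div_le_one (by linarith)]; exact this
        linarith
      calc _ ≤ (((((univ : Finset (AddChar A ℂ)).filter (Av f s a)).filter
            (fun χ => χ (f i) ≠ b)).card : ℕ) : ℝ) := by exact_mod_cast card_le_card hsub
        _ ≤ _ := hc2
        _ ≤ (1 - 1 / (M : ℝ)) * ((1 - 1 / (M : ℝ)) ^ s.card * Fintype.card A) :=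
          mul_le_mul_of_nonneg_left hc hM1
        _ = _ := by rw [card_insert_of_notMem hi, pow_succ]; ring

lemma map_sum_eq {A : Type*} [AddCommGroup A] (χ : AddChar A ℂ) {ι : Type*} [DecidableEq ι]
    (f : ι → A) (t : Finset ι) : χ (∑ i ∈ t, f i) = ∏ i ∈ t, χ (f i) := by
  induction t using Finset.induction_on with
  | empty => simp
  | insert i t hi ih => rw [sum_insert hi, prod_insert hi, AddChar.map_add_eq_mul, ih]

/-- if `s` has more than `M log |A|` elements, some nonempty part of it has sum zero -/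
theorem zero_sum {A : Type*} [AddCommGroup A] [Fintype A] {M : ℕ} (hM : 0 < M)
    (hexp : ∀ g : A, M • g = 0) {ι : Type*} [DecidableEq ι] (f : ι → A) (s : Finset ι)
    (hs : (M : ℝ) * Real.log (Fintype.card A) < s.card) :
    ∃ t ⊆ s, t.Nonempty ∧ ∑ i ∈ t, f i = 0 := by
  classical
  by_contra hcon
  push Not at hcon
  obtain ⟨a, ha, hc⟩ := chain hM hexp f s
  have hM' : (0 : ℝ) < M := by exact_mod_cast hM
  have hA : (0 : ℝ) < Fintype.card A := by exact_mod_cast Fintype.card_pos
  have hM1 : (0 : ℝ) ≤ 1 - 1 / (M : ℝ) := by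
    have : (1 : ℝ) ≤ M := by exact_mod_cast hM
    have h2 : 1 / (M : ℝ) ≤ 1 := by
      rw [div_le_one (by linarith)]; exact this
    linarith
  have hlt : (1 - 1 / (M : ℝ)) ^ s.card * Fintype.card A < 1 := by
    have h1 : 1 - 1 / (M : ℝ) ≤ Real.exp (-(1 / (M : ℝ))) := by
      have := Real.add_one_le_exp (-(1 / (M : ℝ)))
      linarith
    have h2 : (1 - 1 / (M : ℝ)) ^ s.card ≤ Real.exp (-(1 / (M : ℝ))) ^ s.card :=
      pow_le_pow_left₀ hM1 h1 _
    rw [← Real.exp_nat_mul] at h2
    have h3 : (s.card : ℝ) * -(1 / (M : ℝ)) < -Real.log (Fintype.card A) := by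
      rw [mul_neg, neg_lt_neg_iff, mul_one_div, lt_div_iff₀ hM', mul_comm]
      exact hs
    calc (1 - 1 / (M : ℝ)) ^ s.card * Fintype.card A
        ≤ Real.exp ((s.card : ℝ) * -(1 / (M : ℝ))) * Fintype.card A :=
          mul_le_mul_of_nonneg_right h2 hA.le
      _ < Real.exp (-Real.log (Fintype.card A)) * Fintype.card A :=
          mul_lt_mul_of_pos_right (Real.exp_lt_exp.2 h3) hA
      _ = 1 := by
          rw [Real.exp_neg, Real.exp_log hA, inv_mul_cancel₀ hA.ne']
  have hempty : ((univ : Finset (AddChar A ℂ)).filter (Av f s a)).card = 0 := by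
    have : ((((univ : Finset (AddChar A ℂ)).filter (Av f s a)).card : ℕ) : ℝ)
        < ((1 : ℕ) : ℝ) := by
      push_cast
      exact lt_of_le_of_lt hc hlt
    have h2 := Nat.cast_lt.1 this
    omega
  have hzero : ∀ χ : AddChar A ℂ, ∏ i ∈ s, (-χ (f i) + a i) = 0 := by
    intro χ
    rw [card_eq_zero] at hempty
    have : χ ∉ ((univ : Finset (AddChar A ℂ)).filter (Av f s a)) := by
      rw [hempty]; exact notMem_empty _
    rw [mem_filter] at this
    unfold Av at this
    push Not at this
    obtain ⟨i, hi, h⟩ := this (mem_univ _)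
    apply prod_eq_zero hi
    rw [h]; ring
  have hsum : ∑ χ : AddChar A ℂ, ∏ i ∈ s, (-χ (f i) + a i) = 0 :=
    sum_eq_zero fun χ _ => hzero χ
  simp_rw [prod_add] at hsum
  rw [sum_comm] at hsum
  have hterm : ∀ t ∈ s.powerset, ∑ χ : AddChar A ℂ, ((∏ i ∈ t, -χ (f i)) * ∏ i ∈ s \ t, a i) =
      if t = ∅ then (∏ i ∈ s, a i) * Fintype.card A else 0 := by
    intro t ht
    rw [mem_powerset] at ht
    have h1 : ∀ χ : AddChar A ℂ, ∏ i ∈ t, -χ (f i) = (-1) ^ t.card * χ (∑ i ∈ t, f i) := by
      intro χ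
      rw [map_sum_eq, ← prod_const, ← prod_mul_distrib]
      exact prod_congr rfl fun i _ => by ring
    simp_rw [h1]
    have h2 : ∀ χ : AddChar A ℂ, (-1) ^ t.card * χ (∑ i ∈ t, f i) * ∏ i ∈ s \ t, a i =
        ((-1) ^ t.card * ∏ i ∈ s \ t, a i) * χ (∑ i ∈ t, f i) := fun χ => by ring
    simp_rw [h2]
    rw [← mul_sum, AddChar.sum_apply_eq_ite]
    by_cases hte : t = ∅
    · subst hte; simp
    · rw [if_neg hte, if_neg (hcon t ht (nonempty_iff_ne_empty.2 hte)), mul_zero]
  rw [sum_congr rfl hterm, sum_ite_eq' s.powerset ∅] at hsum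
  rw [if_pos (empty_mem_powerset s)] at hsum
  have h3 : ∏ i ∈ s, a i ≠ 0 := prod_ne_zero_iff.2 fun i _ => ha i
  have h4 : (Fintype.card A : ℂ) ≠ 0 := by exact_mod_cast Fintype.card_ne_zero
  exact mul_ne_zero h3 h4 hsum

/-- the multiplicative form -/
theorem prod_one {G : Type*} [CommGroup G] [Fintype G] {M : ℕ} (hM : 0 < M)
    (hexp : ∀ g : G, g ^ M = 1) {ι : Type*} [DecidableEq ι] (f : ι → G) (s : Finset ι)
    (hs : (M : ℝ) * Real.log (Fintype.card G) < s.card) :
    ∃ t ⊆ s, t.Nonempty ∧ ∏ i ∈ t, f i = 1 := by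
  obtain ⟨t, h1, h2, h3⟩ := zero_sum (A := Additive G) hM
    (fun g => by
      have := hexp (Additive.toMul g)
      rw [← toMul_nsmul] at this
      exact Additive.toMul.injective this) (fun i => Additive.ofMul (f i)) s
    (by simpa using hs)
  exact ⟨t, h1, h2, by
    have h4 := congrArg Additive.toMul h3
    simpa using h4⟩

end Pool.Agent.N919.AGP
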