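import Mathlib

set_option autoImplicit false

/-!
The sizes of the parameters.
-/

namespace Pool.Agent.N919.AGP

open Finset Filter

/-- a power beats the logarithm -/
lemma ev_log_le (A s : ℝ) (hs : 0 < s) : ∀ᶠ t : ℕ in atTop, A * Real.log t ≤ (t : ℝ) ^ s := by
  have hlog : Tendsto (fun t : ℕ => Real.log (t : ℝ)) atTop atTop :=
    Real.tendsto_log_atTop.comp tendsto_natCast_atTop_atTop
  have h := isLittleO_log_rpow_atTop hs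
  have h2 := h.def (show (0 : ℝ) < 1 / (|A| + 1) by positivity)
  have h3 := (tendsto_natCast_atTop_atTop (R := ℝ)).eventually h2
  filter_upwards [h3, hlog.eventually_ge_atTop 0] with t ht ht0
  rw [Real.norm_eq_abs, Real.norm_eq_abs, abs_of_nonneg ht0,
    abs_of_nonneg (by positivity : (0 : ℝ) ≤ (t : ℝ) ^ s)] at ht
  have h4 : (|A| + 1) * Real.log t ≤ (t : ℝ) ^ s := by
    calc (|A| + 1) * Real.log t ≤ (|A| + 1) * (1 / (|A| + 1) * (t : ℝ) ^ s) :=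
          mul_le_mul_of_nonneg_left ht (by positivity)
      _ = (t : ℝ) ^ s := by field_simp
  have h5 : A * Real.log t ≤ (|A| + 1) * Real.log t :=
    mul_le_mul_of_nonneg_right (by linarith [le_abs_self A]) ht0
  linarith

lemma ev_rpow_ge (A s : ℝ) (hs : 0 < s) : ∀ᶠ t : ℕ in atTop, A ≤ (t : ℝ) ^ s :=
  ((tendsto_rpow_atTop hs).comp tendsto_natCast_atTop_atTop).eventually_ge_atTop A

/-- all the inequalities between the parameters -/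
theorem params (κ c ε : ℝ) (K T N : ℕ) (hκ : 0 < κ) (hκ4 : κ ≤ 1 / 4) (hc : 0 < c) (hε : 0 < ε) :
    ∃ t : ℕ, T ≤ t ∧ N < t ∧ 2 ≤ t ∧ 1 / ε ≤ t ∧ 16 * Real.log t ≤ t ∧
      (1 + 32 * K) * (32 * Real.log t) ≤ (t : ℝ) ^ (κ / 2) ∧
      32 * Real.log t * 2 ^ (32 * K) ≤ (t : ℝ) ^ (κ / 8) ∧
      (t : ℝ) ^ (1 - κ) + 5 ≤ κ / 8 * ((t : ℝ) ^ (1 - κ / 2) - 1) ∧
      1 + 16 * (K : ℝ) * (t : ℝ) ^ 2 ≤ c * (t : ℝ) ^ 3 := by
  have hev : ∀ᶠ t : ℕ in atTop, T ≤ t ∧ N < t ∧ 2 ≤ t ∧ 1 / ε ≤ (t : ℝ) ∧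
      16 * Real.log t ≤ (t : ℝ) ^ (1 : ℝ) ∧
      ((1 + 32 * K) * 32) * Real.log t ≤ (t : ℝ) ^ (κ / 2) ∧
      (32 * 2 ^ (32 * K)) * Real.log t ≤ (t : ℝ) ^ (κ / 8) ∧
      16 / κ ≤ (t : ℝ) ^ (κ / 2) ∧ 80 / κ + 2 ≤ (t : ℝ) ^ (1 - κ / 2) ∧
      (1 + 16 * (K : ℝ)) / c ≤ (t : ℝ) ^ (1 : ℝ) := by
    filter_upwards [eventually_ge_atTop T, eventually_gt_atTop N, eventually_ge_atTop 2,
      ev_rpow_ge (1 / ε) 1 one_pos, ev_log_le 16 1 one_pos,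
      ev_log_le ((1 + 32 * K) * 32) (κ / 2) (by positivity),
      ev_log_le (32 * 2 ^ (32 * K)) (κ / 8) (by positivity),
      ev_rpow_ge (16 / κ) (κ / 2) (by positivity),
      ev_rpow_ge (80 / κ + 2) (1 - κ / 2) (by linarith),
      ev_rpow_ge ((1 + 16 * (K : ℝ)) / c) 1 one_pos] with t h1 h2 h3 h4 h5 h6 h7 h8 h9 h10
    rw [Real.rpow_one] at h4
    exact ⟨h1, h2, h3, h4, h5, h6, h7, h8, h9, h10⟩
  obtain ⟨t, h1, h2, h3, h4, h5, h6, h7, h8, h9, h10⟩ := hev.exists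
  have ht2 : (2 : ℝ) ≤ t := by exact_mod_cast h3
  have ht0 : (0 : ℝ) < t := by linarith
  rw [Real.rpow_one] at h5 h10
  refine ⟨t, h1, h2, h3, h4, h5, ?_, ?_, ?_, ?_⟩
  · calc (1 + 32 * (K : ℝ)) * (32 * Real.log t) = ((1 + 32 * K) * 32) * Real.log t := by ring
      _ ≤ _ := h6
  · calc 32 * Real.log t * 2 ^ (32 * K) = (32 * 2 ^ (32 * K)) * Real.log t := by ring
      _ ≤ _ := h7
  · have e1 : (t : ℝ) ^ (1 - κ / 2) = (t : ℝ) ^ (1 - κ) * (t : ℝ) ^ (κ / 2) := by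
      rw [← Real.rpow_add ht0]; congr 1; ring
    have h11 : 0 ≤ (t : ℝ) ^ (1 - κ) := by positivity
    have h12 : (t : ℝ) ^ (1 - κ) * (16 / κ) ≤ (t : ℝ) ^ (1 - κ / 2) := by
      rw [e1]; exact mul_le_mul_of_nonneg_left h8 h11
    have h13 : (t : ℝ) ^ (1 - κ) ≤ κ / 16 * (t : ℝ) ^ (1 - κ / 2) := by
      calc (t : ℝ) ^ (1 - κ) = κ / 16 * ((t : ℝ) ^ (1 - κ) * (16 / κ)) := by field_simp
        _ ≤ _ := mul_le_mul_of_nonneg_left h12 (by positivity)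
    have h14 : 5 + κ / 8 ≤ κ / 16 * (t : ℝ) ^ (1 - κ / 2) := by
      calc 5 + κ / 8 = κ / 16 * (80 / κ + 2) := by field_simp; ring
        _ ≤ _ := mul_le_mul_of_nonneg_left h9 (by positivity)
    linarith
  · rw [div_le_iff₀ hc] at h10
    have h11 : (1 : ℝ) ≤ (t : ℝ) ^ 2 := by nlinarith
    have hK : (0 : ℝ) ≤ K := by positivity
    calc 1 + 16 * (K : ℝ) * (t : ℝ) ^ 2 ≤ (1 + 16 * (K : ℝ)) * (t : ℝ) ^ 2 := by nlinarith
      _ ≤ (t * c) * (t : ℝ) ^ 2 := mul_le_mul_of_nonneg_right h10 (by positivity)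
      _ = c * (t : ℝ) ^ 3 := by ring

end Pool.Agent.N919.AGP
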