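import Pool.Agent.N919.AGP.Smooth
import Pool.Agent.N919.AGP.Carm
import Pool.Agent.N919.AGP.Size
import Pool.Agent.Y835.SC.Page

set_option autoImplicit false

/-!
Carmichael numbers with large prime factors (after Alford, Granville and Pomerance).
-/

namespace Pool.Agent.N919.AGP

open Finset Filter

/-- the exponent: the product of the largest powers at most `t` of the primes up to `y` -/
def Mexp (y t : ℕ) : ℕ := ∏ r ∈ (Icc 1 y).filter (fun r => r.Prime), r ^ Nat.log r t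

lemma Mexp_pos (y t : ℕ) : 0 < Mexp y t :=
  prod_pos fun r hr => pow_pos (mem_filter.1 hr).2.pos _

lemma Mexp_le (y t : ℕ) (ht : 1 ≤ t) : Mexp y t ≤ t ^ y := by
  unfold Mexp
  calc ∏ r ∈ (Icc 1 y).filter (fun r => r.Prime), r ^ Nat.log r t
      ≤ t ^ ((Icc 1 y).filter (fun r => r.Prime)).card :=
        prod_le_pow_card _ _ _ fun r _ => Nat.pow_log_le_self r (by omega)
    _ ≤ t ^ y := by
        apply Nat.pow_le_pow_right ht
        calc ((Icc 1 y).filter (fun r => r.Prime)).card ≤ (Icc 1 y).card := card_filter_le _ _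
          _ = y := by rw [Nat.card_Icc]; omega

lemma dvd_Mexp {y t m : ℕ} (hm : 1 ≤ m) (hmt : m ≤ t) (h : ∀ r : ℕ, r.Prime → r ∣ m → r ≤ y) :
    m ∣ Mexp y t := by
  have h1 : m = ∏ r ∈ m.primeFactors, r ^ m.factorization r :=
    (Nat.prod_factorization_pow_eq_self (by omega)).symm
  rw [h1]
  have h2 : ∏ r ∈ m.primeFactors, r ^ m.factorization r ∣
      ∏ r ∈ m.primeFactors, r ^ Nat.log r t := by
    apply prod_dvd_prod_of_dvd
    intro r hr
    apply pow_dvd_pow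
    have hrp := Nat.prime_of_mem_primeFactors hr
    apply Nat.le_log_of_pow_le hrp.one_lt
    exact (Nat.le_of_dvd (by omega) (Nat.ordProj_dvd m r)).trans hmt
  refine h2.trans ?_
  unfold Mexp
  apply prod_dvd_prod_of_subset
  intro r hr
  have hrp := Nat.prime_of_mem_primeFactors hr
  rw [mem_filter, mem_Icc]
  exact ⟨⟨hrp.pos, h r hrp (Nat.dvd_of_mem_primeFactors hr)⟩, hrp⟩

theorem agp (ε : ℝ) (hε : 0 < ε) (N : ℕ) : ∃ S : Finset ℕ, 2 ≤ S.card ∧
    (∀ p ∈ S, p.Prime ∧ N < p) ∧ (∀ p ∈ S, p - 1 ∣ (∏ q ∈ S, q) - 1) ∧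
    ∑ p ∈ S, (1 : ℝ) / p ≤ ε := by
  classical
  obtain ⟨κ, hκ, hκ4, T0, hsm⟩ := smooth
  obtain ⟨K, c, hK, hc, z0, hpage⟩ := Pool.Agent.Y835.SC.page
  obtain ⟨t, hT, hN, ht2, hεt, h16, hE4, hE5, hE6, hE7⟩ :=
    params κ c ε K (max T0 z0) N hκ hκ4 hc hε
  have htT0 : T0 ≤ t := (le_max_left _ _).trans hT
  have htz0 : z0 ≤ t := (le_max_right _ _).trans hT
  have ht2' : (2 : ℝ) ≤ t := by exact_mod_cast ht2
  have ht0 : (0 : ℝ) < t := by linarith
  have hL : 0 < Real.log t := Real.log_pos (by linarith)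
  set y : ℕ := ⌊(t : ℝ) ^ (1 - κ)⌋₊ with hy
  set u : ℕ := ⌊(t : ℝ) ^ (1 - κ / 2)⌋₊ with hu
  set lo : ℝ := (t : ℝ) ^ (1 - κ / 4) with hlo
  have hyle : (y : ℝ) ≤ (t : ℝ) ^ (1 - κ) := Nat.floor_le (by positivity)
  have hule : (u : ℝ) ≤ (t : ℝ) ^ (1 - κ / 2) := Nat.floor_le (by positivity)
  have hugt : (t : ℝ) ^ (1 - κ / 2) - 1 < u := by
    have := Nat.lt_floor_add_one ((t : ℝ) ^ (1 - κ / 2))
    rw [← hu] at this
    linarith
  have hlo0 : 0 < lo := by positivity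
  -- `y + 5 ≤ κ u / 8`
  have hyu : (y : ℝ) + 5 ≤ κ / 8 * u := by
    have h1 : κ / 8 * ((t : ℝ) ^ (1 - κ / 2) - 1) ≤ κ / 8 * u :=
      mul_le_mul_of_nonneg_left hugt.le (by positivity)
    linarith
  have hyu' : y + 5 ≤ u := by
    have h1 : κ / 8 * (u : ℝ) ≤ 1 * u := mul_le_mul_of_nonneg_right (by linarith) (by positivity)
    have h2 : ((y + 5 : ℕ) : ℝ) ≤ (u : ℕ) := by push_cast; linarith
    exact_mod_cast h2
  have hu1 : 1 ≤ u := by omega
  set z : ℕ := t ^ (16 * u) with hz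
  have htz : t ≤ z := by
    rw [hz]
    have h1 : t ^ 1 ≤ t ^ (16 * u) := Nat.pow_le_pow_right (by omega) (by omega)
    rwa [pow_one] at h1
  obtain ⟨q₁, hq₁, hpz⟩ := hpage z (htz0.trans htz)
  -- the primes
  set Q : Finset ℕ := (QQ κ t).erase q₁.minFac with hQdef
  have hQmem : ∀ q ∈ Q, q ≤ t ∧ q.Prime ∧ lo < (q : ℝ) ∧
      (∀ r : ℕ, r.Prime → r ∣ q - 1 → r ≤ y) ∧ q ≠ q₁.minFac := by
    intro q hq
    rw [hQdef, mem_erase, mem_QQ] at hq
    exact ⟨hq.2.1, hq.2.2.1, hq.2.2.2.1, hq.2.2.2.2, hq.1⟩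
  have hQ : ∀ q ∈ Q, q.Prime := fun q hq => (hQmem q hq).2.1
  have hQt : ∀ q ∈ Q, q ≤ t := fun q hq => (hQmem q hq).1
  have hQlo : ∀ q ∈ Q, lo < (q : ℝ) := fun q hq => (hQmem q hq).2.2.1
  -- the number of primes
  have hQcard : (t : ℝ) / (16 * Real.log t) ≤ (Q.card : ℝ) := by
    have h1 := hsm t htT0
    have h2 : ((QQ κ t).card : ℝ) ≤ Q.card + 1 := by
      have := Finset.pred_card_le_card_erase (s := QQ κ t) (a := q₁.minFac)
      rw [← hQdef] at this
      have h3 : (QQ κ t).card ≤ Q.card + 1 := by omega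
      exact_mod_cast h3
    rw [div_le_iff₀ (by positivity)]
    nlinarith [mul_le_mul_of_nonneg_right h2 hL.le]
  have hQcard_le : Q.card ≤ t := by
    have h1 : Q ⊆ Icc 1 t := by
      intro q hq
      rw [mem_Icc]
      exact ⟨(hQ q hq).pos, hQt q hq⟩
    have h2 := card_le_card h1
    rwa [Nat.card_Icc, Nat.add_sub_cancel] at h2
  -- `(1 + 32 K) u ≤ t / (32 log t)`
  have hsplit : (t : ℝ) ^ (1 - κ / 2) * (t : ℝ) ^ (κ / 2) = t := by
    rw [← Real.rpow_add ht0]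
    simp
  have hKu : (1 + 32 * (K : ℝ)) * u * (32 * Real.log t) ≤ t := by
    calc (1 + 32 * (K : ℝ)) * u * (32 * Real.log t) = u * ((1 + 32 * K) * (32 * Real.log t)) := by ring
      _ ≤ (t : ℝ) ^ (1 - κ / 2) * (t : ℝ) ^ (κ / 2) :=
        mul_le_mul hule hE4 (by positivity) (by positivity)
      _ = t := hsplit
  have hQbig : (1 + 32 * (K : ℝ)) * u + t / (32 * Real.log t) ≤ Q.card := by
    have h1 : (1 + 32 * (K : ℝ)) * u ≤ t / (32 * Real.log t) := by
      rw [le_div_iff₀ (by positivity)]; exact hKu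
    have h2 : (t : ℝ) / (16 * Real.log t) = t / (32 * Real.log t) + t / (32 * Real.log t) := by
      field_simp; norm_num
    linarith
  have hpos32 : (0 : ℝ) < t / (32 * Real.log t) := by positivity
  have huQ : u + 32 * K * u < Q.card := by
    have h1 : ((u + 32 * K * u : ℕ) : ℝ) < (Q.card : ℕ) := by
      push_cast
      nlinarith
    exact_mod_cast h1
  have huQ' : u ≤ Q.card := by
    have : 0 ≤ 32 * K * u := Nat.zero_le _
    omega
  have hQsub : (t : ℝ) / (32 * Real.log t) ≤ ((Q.card + 1 - u : ℕ) : ℝ) := by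
    rw [Nat.cast_sub (by omega)]
    push_cast
    have : 0 ≤ 32 * (K : ℝ) * u := by positivity
    linarith
  -- primes in progressions
  set Z : ℕ := z ^ K with hZ
  have hz1 : 1 ≤ z := by rw [hz]; exact Nat.one_le_pow _ _ (by omega)
  have hZ1 : 1 ≤ Z := Nat.one_le_pow _ _ hz1
  have hlogZ : Real.log Z = 16 * K * u * Real.log t := by
    rw [hZ, hz, ← pow_mul]
    push_cast
    rw [Real.log_pow]
    push_cast
    ring
  have hpageT : ∀ T ∈ Q.powersetCard u, c / ((∏ q ∈ T, q : ℕ) : ℝ) ≤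
      ∑ p ∈ (Ioc z Z).filter (fun p => p.Prime ∧ p ≡ 1 [MOD ∏ q ∈ T, q]), (1 : ℝ) / p := by
    intro T hT
    have hT' := mem_powersetCard.1 hT
    have hd0 : 0 < ∏ q ∈ T, q := prod_pos_of hQ hT'.1
    have hdt : ∏ q ∈ T, q ≤ t ^ u := by
      rw [← hT'.2]
      exact prod_le_pow_card _ _ _ fun q hq => hQt q (hT'.1 hq)
    have hnd : ¬ q₁ ∣ ∏ q ∈ T, q := by
      intro h
      have hmp : q₁.minFac.Prime := Nat.minFac_prime (by omega)
      have h1 : q₁.minFac ∣ ∏ q ∈ T, q := (Nat.minFac_dvd q₁).trans h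
      rw [Prime.dvd_finsetProd_iff hmp.prime] at h1
      obtain ⟨r, hr, hqr⟩ := h1
      have h2 := (Nat.prime_dvd_prime_iff_eq hmp (hQ r (hT'.1 hr))).1 hqr
      exact (hQmem r (hT'.1 hr)).2.2.2.2 h2.symm
    refine le_trans ?_ (hpz (∏ q ∈ T, q) 1 hd0 ?_ hnd (Nat.coprime_one_left _))
    · apply div_le_div_of_nonneg_left hc.le
      · exact_mod_cast Nat.totient_pos.2 hd0
      · exact_mod_cast Nat.totient_le _
    · calc (∏ q ∈ T, q) ^ 16 ≤ (t ^ u) ^ 16 := Nat.pow_le_pow_left hdt _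
        _ = z := by rw [hz, ← pow_mul, mul_comm]
  obtain ⟨k, hk1, hkZ, hkfam⟩ := choose_k hlo0 hc.le hQ hQlo hQt hZ1 huQ' hpageT
  -- the primes of `Q` dividing `k`
  have hlosq : (t : ℝ) ≤ lo ^ 2 := by
    rw [hlo, ← Real.rpow_natCast, ← Real.rpow_mul ht0.le]
    calc (t : ℝ) = (t : ℝ) ^ (1 : ℝ) := (Real.rpow_one _).symm
      _ ≤ _ := Real.rpow_le_rpow_of_exponent_le (by linarith) (by push_cast; linarith)
  have hRcard : (Q.filter (fun q => q ∣ k)).card ≤ 32 * K * u := by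
    set R := Q.filter (fun q => q ∣ k) with hR
    have h1 : ∏ q ∈ R, q ∣ k := by
      apply Finset.prod_primes_dvd
      · exact fun q hq => (hQ q (mem_filter.1 hq).1).prime
      · exact fun q hq => (mem_filter.1 hq).2
    have h2 : ∏ q ∈ R, q ≤ Z := (Nat.le_of_dvd hk1 h1).trans hkZ
    have h3 : lo ^ R.card ≤ ((∏ q ∈ R, q : ℕ) : ℝ) := by
      rw [Nat.cast_prod, ← prod_const]
      exact prod_le_prod (fun _ _ => hlo0.le) fun q hq => (hQlo q (mem_filter.1 hq).1).le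
    have h4 : (t : ℝ) ^ R.card ≤ (t : ℝ) ^ (32 * K * u) := by
      calc (t : ℝ) ^ R.card ≤ (lo ^ 2) ^ R.card := pow_le_pow_left₀ ht0.le hlosq _
        _ = (lo ^ R.card) ^ 2 := by rw [← pow_mul, ← pow_mul, mul_comm]
        _ ≤ ((∏ q ∈ R, q : ℕ) : ℝ) ^ 2 := pow_le_pow_left₀ (by positivity) h3 _
        _ ≤ (Z : ℝ) ^ 2 := pow_le_pow_left₀ (by positivity) (by exact_mod_cast h2) _
        _ = (t : ℝ) ^ (32 * K * u) := by
          rw [hZ, hz]
          push_cast
          rw [← pow_mul, ← pow_mul]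
          congr 1
          ring
    exact (pow_le_pow_iff_right₀ (by linarith : (1 : ℝ) < t)).1 h4
  -- the size of the family
  have hchoose : ((t : ℝ) / (32 * Real.log t)) ^ u ≤ (u : ℝ) ^ u * (Q.card.choose u : ℝ) := by
    calc ((t : ℝ) / (32 * Real.log t)) ^ u ≤ (((Q.card + 1 - u : ℕ) : ℝ)) ^ u :=
          pow_le_pow_left₀ hpos32.le hQsub _
      _ ≤ ((u.factorial * Q.card.choose u : ℕ) : ℝ) := by
          rw [← Nat.descFactorial_eq_factorial_mul_choose]
          exact_mod_cast Nat.pow_sub_le_descFactorial Q.card u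
      _ ≤ (u : ℝ) ^ u * (Q.card.choose u : ℝ) := by
          push_cast
          apply mul_le_mul_of_nonneg_right _ (by positivity)
          exact_mod_cast Nat.factorial_le_pow u
  have hu0 : (0 : ℝ) < u := by exact_mod_cast hu1
  have hlo_ge : (32 * Real.log t) * u * ((t : ℝ) ^ (κ / 8) * 2 ^ (32 * K)) ≤ lo := by
    have e1 : lo = (t : ℝ) ^ (1 - κ / 2) * ((t : ℝ) ^ (κ / 8) * (t : ℝ) ^ (κ / 8)) := by
      rw [hlo, ← Real.rpow_add ht0, ← Real.rpow_add ht0]
      congr 1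
      ring
    rw [e1]
    calc (32 * Real.log t) * u * ((t : ℝ) ^ (κ / 8) * 2 ^ (32 * K))
        = u * ((t : ℝ) ^ (κ / 8) * (32 * Real.log t * 2 ^ (32 * K))) := by ring
      _ ≤ (t : ℝ) ^ (1 - κ / 2) * ((t : ℝ) ^ (κ / 8) * (t : ℝ) ^ (κ / 8)) := by
        apply mul_le_mul hule _ (by positivity) (by positivity)
        exact mul_le_mul_of_nonneg_left hE5 (by positivity)
  set W : ℝ := ((t : ℝ) ^ (κ / 8)) ^ u * (2 : ℝ) ^ (32 * K * u) with hW
  have hWlo : (32 * Real.log t) ^ u * (u : ℝ) ^ u * W ≤ lo ^ u := by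
    calc (32 * Real.log t) ^ u * (u : ℝ) ^ u * W
        = ((32 * Real.log t) * u * ((t : ℝ) ^ (κ / 8) * 2 ^ (32 * K))) ^ u := by
          have e : W = ((t : ℝ) ^ (κ / 8) * 2 ^ (32 * K)) ^ u := by
            rw [hW, mul_pow ((t : ℝ) ^ (κ / 8)), ← pow_mul]
          rw [e, ← mul_pow, ← mul_pow]
      _ ≤ lo ^ u := pow_le_pow_left₀ (by positivity) hlo_ge _
  have hmain : c * W ≤ (1 + Real.log Z) * ((Fam Q u z Z k).card : ℝ) := by
    have h1 : (t : ℝ) ^ u * (u : ℝ) ^ u * (c * W) ≤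
        (t : ℝ) ^ u * (u : ℝ) ^ u * ((1 + Real.log Z) * ((Fam Q u z Z k).card : ℝ)) := by
      calc (t : ℝ) ^ u * (u : ℝ) ^ u * (c * W)
          = c * (t / (32 * Real.log t)) ^ u * ((32 * Real.log t) ^ u * (u : ℝ) ^ u * W) := by
            rw [div_pow]
            have : (32 * Real.log t) ^ u ≠ 0 := by positivity
            field_simp
        _ ≤ c * (t / (32 * Real.log t)) ^ u * lo ^ u :=
            mul_le_mul_of_nonneg_left hWlo (by positivity)
        _ ≤ c * ((u : ℝ) ^ u * (Q.card.choose u : ℝ)) * lo ^ u := by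
            apply mul_le_mul_of_nonneg_right _ (by positivity)
            exact mul_le_mul_of_nonneg_left hchoose hc.le
        _ = (u : ℝ) ^ u * (c * (Q.card.choose u : ℝ) * lo ^ u) := by ring
        _ ≤ (u : ℝ) ^ u * ((t : ℝ) ^ u * (1 + Real.log Z) * ((Fam Q u z Z k).card : ℝ)) :=
            mul_le_mul_of_nonneg_left hkfam (by positivity)
        _ = _ := by ring
    exact le_of_mul_le_mul_left h1 (by positivity)
  have hut : (u : ℝ) ≤ t := by
    have : u ≤ Q.card := huQ'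
    exact_mod_cast this.trans hQcard_le
  have hlogt : Real.log t ≤ t := by
    have := Real.log_le_sub_one_of_pos ht0
    linarith
  have hZle : 1 + Real.log Z ≤ c * (t : ℝ) ^ 3 := by
    rw [hlogZ]
    refine le_trans ?_ hE7
    have h1 : (u : ℝ) * Real.log t ≤ t * t := mul_le_mul hut hlogt hL.le ht0.le
    have h2 : (0 : ℝ) ≤ 16 * K := by positivity
    nlinarith
  have hWge : (t : ℝ) ^ (y + 5) * (2 : ℝ) ^ (32 * K * u) ≤ W := by
    rw [hW]
    apply mul_le_mul_of_nonneg_right _ (by positivity)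
    rw [← Real.rpow_natCast, ← Real.rpow_natCast ((t : ℝ) ^ (κ / 8)), ← Real.rpow_mul ht0.le]
    apply Real.rpow_le_rpow_of_exponent_le (by linarith)
    push_cast
    exact hyu
  have hfam : 2 ^ (Q.filter (fun q => q ∣ k)).card * t ^ (y + 2) ≤ (Fam Q u z Z k).card := by
    have h1 : c * (t : ℝ) ^ 3 * ((t : ℝ) ^ (y + 2) * (2 : ℝ) ^ (32 * K * u)) ≤
        c * (t : ℝ) ^ 3 * ((Fam Q u z Z k).card : ℝ) := by
      calc c * (t : ℝ) ^ 3 * ((t : ℝ) ^ (y + 2) * (2 : ℝ) ^ (32 * K * u))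
          = c * ((t : ℝ) ^ (y + 5) * (2 : ℝ) ^ (32 * K * u)) := by ring
        _ ≤ c * W := mul_le_mul_of_nonneg_left hWge hc.le
        _ ≤ (1 + Real.log Z) * ((Fam Q u z Z k).card : ℝ) := hmain
        _ ≤ _ := mul_le_mul_of_nonneg_right hZle (by positivity)
    have h2 := le_of_mul_le_mul_left h1 (by positivity)
    have h3 : t ^ (y + 2) * 2 ^ (32 * K * u) ≤ (Fam Q u z Z k).card := by exact_mod_cast h2
    calc 2 ^ (Q.filter (fun q => q ∣ k)).card * t ^ (y + 2)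
        ≤ 2 ^ (32 * K * u) * t ^ (y + 2) :=
          Nat.mul_le_mul_right _ (Nat.pow_le_pow_right (by norm_num) hRcard)
      _ = t ^ (y + 2) * 2 ^ (32 * K * u) := mul_comm _ _
      _ ≤ _ := h3
  -- the group
  have hlogprod : Real.log ((∏ q ∈ Q, q : ℕ) : ℝ) ≤ t * Real.log t := by
    have h1 : ∏ q ∈ Q, q ≤ t ^ t := by
      calc ∏ q ∈ Q, q ≤ t ^ Q.card := prod_le_pow_card _ _ _ hQt
        _ ≤ t ^ t := Nat.pow_le_pow_right (by omega) hQcard_le
    calc Real.log ((∏ q ∈ Q, q : ℕ) : ℝ) ≤ Real.log (((t ^ t : ℕ)) : ℝ) := by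
          apply Real.log_le_log
          · exact_mod_cast prod_pos fun q hq => (hQ q hq).pos
          · exact_mod_cast h1
      _ = t * Real.log t := by push_cast; rw [Real.log_pow]
  have hlogt2 : Real.log t < t := by
    have := Real.log_le_sub_one_of_pos ht0
    linarith
  have hB : (Mexp y t : ℝ) * Real.log ((∏ q ∈ Q, q : ℕ) : ℝ) < ((t ^ (y + 2) : ℕ) : ℝ) := by
    have h1 : (Mexp y t : ℝ) ≤ (t : ℝ) ^ y := by exact_mod_cast Mexp_le y t (by omega)
    calc (Mexp y t : ℝ) * Real.log ((∏ q ∈ Q, q : ℕ) : ℝ)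
        ≤ (t : ℝ) ^ y * (t * Real.log t) := by
          apply mul_le_mul h1 hlogprod _ (by positivity)
          apply Real.log_nonneg
          have : 1 ≤ ∏ q ∈ Q, q := prod_pos fun q hq => (hQ q hq).pos
          exact_mod_cast this
      _ < (t : ℝ) ^ y * (t * t) := by
          apply mul_lt_mul_of_pos_left _ (by positivity)
          exact mul_lt_mul_of_pos_left hlogt2 ht0
      _ = _ := by push_cast; ring
  obtain ⟨S, hS2, hSB, hSp, hSd⟩ := carm_of_fam hQ hQt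
    (fun q hq => dvd_Mexp (by have := (hQ q hq).one_lt; omega) (by have := hQt q hq; omega)
      (hQmem q hq).2.2.2.1) (Mexp_pos y t) htz hk1 hB hfam
    (lt_of_le_of_lt (Nat.add_le_add_left hRcard u) huQ)
  refine ⟨S, hS2, fun p hp => ⟨(hSp p hp).1, ?_⟩, hSd, ?_⟩
  · have h1 := (hSp p hp).2
    omega
  · have hz0 : (0 : ℝ) < z := by exact_mod_cast hz1
    have h1 : ∀ p ∈ S, (1 : ℝ) / p ≤ 1 / z := by
      intro p hp
      apply one_div_le_one_div_of_le hz0
      exact_mod_cast (hSp p hp).2.le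
    calc ∑ p ∈ S, (1 : ℝ) / p ≤ ∑ p ∈ S, (1 : ℝ) / z := sum_le_sum h1
      _ = S.card * (1 / z) := by rw [sum_const, nsmul_eq_mul]
      _ ≤ (t : ℝ) ^ (y + 2) * (1 / z) := by
          apply mul_le_mul_of_nonneg_right _ (by positivity)
          exact_mod_cast hSB
      _ ≤ ε := by
          rw [mul_one_div, div_le_iff₀ hz0]
          have h2 : (t : ℝ) ^ (y + 2) * t ≤ z := by
            have h3 : t ^ (y + 2) * t ≤ z := by
              rw [hz, ← pow_succ]
              exact Nat.pow_le_pow_right (by omega) (by omega)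
            exact_mod_cast h3
          have h3 : 1 ≤ ε * t := by
            rw [div_le_iff₀ hε] at hεt
            linarith
          have h4 : (0 : ℝ) ≤ (t : ℝ) ^ (y + 2) := by positivity
          calc (t : ℝ) ^ (y + 2) ≤ (t : ℝ) ^ (y + 2) * (ε * t) := by nlinarith
            _ = ε * ((t : ℝ) ^ (y + 2) * t) := by ring
            _ ≤ ε * z := mul_le_mul_of_nonneg_left h2 hε.le

end Pool.Agent.N919.AGP
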