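import Pool.Agent.N919.AGP.Fin

set_option autoImplicit false

/-!
Almost all residues modulo some Carmichael numbers are Fermat liars.
-/

namespace Pool.Agent.N919.AGP

open Finset

lemma pow_pred_modEq {S : Finset ℕ} (hS : ∀ p ∈ S, p.Prime)
    (hd : ∀ p ∈ S, p - 1 ∣ (∏ q ∈ S, q) - 1) {a : ℕ} (ha : 0 < a)
    (hcop : Nat.Coprime a (∏ q ∈ S, q)) :
    a ^ ((∏ q ∈ S, q) - 1) ≡ 1 [MOD ∏ q ∈ S, q] := by
  have hpos : 1 ≤ a ^ ((∏ q ∈ S, q) - 1) := Nat.one_le_pow _ _ ha
  apply Nat.ModEq.symm
  rw [Nat.modEq_iff_dvd' hpos]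
  apply Finset.prod_primes_dvd
  · exact fun q hq => (hS q hq).prime
  · intro q hq
    rw [← Nat.modEq_iff_dvd' hpos]
    apply Nat.ModEq.symm
    obtain ⟨e, he⟩ := hd q hq
    have h2 : Nat.Coprime a q := Nat.Coprime.coprime_dvd_right (dvd_prod_of_mem _ hq) hcop
    have h3 := Nat.ModEq.pow_totient h2
    rw [Nat.totient_prime (hS q hq)] at h3
    rw [he, pow_mul]
    simpa using h3.pow e

lemma prod_one_sub_ge (S : Finset ℕ) (x : ℕ → ℝ) (h0 : ∀ p ∈ S, 0 ≤ x p) (h1 : ∀ p ∈ S, x p ≤ 1) :
    1 - ∑ p ∈ S, x p ≤ ∏ p ∈ S, (1 - x p) := by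
  classical
  induction S using Finset.induction_on with
  | empty => simp
  | insert a s ha ih =>
    rw [sum_insert ha, prod_insert ha]
    have h2 := ih (fun p hp => h0 p (mem_insert_of_mem hp)) (fun p hp => h1 p (mem_insert_of_mem hp))
    have h3 := h0 a (mem_insert_self _ _)
    have h4 := h1 a (mem_insert_self _ _)
    have h5 : 0 ≤ ∑ p ∈ s, x p := sum_nonneg fun p hp => h0 p (mem_insert_of_mem hp)
    nlinarith [mul_le_mul_of_nonneg_left h2 (by linarith : 0 ≤ 1 - x a)]

theorem liars (ε : ℝ) (hε : 0 < ε) (N : ℕ) : ∃ n : ℕ, N < n ∧ 1 < n ∧ ¬ Nat.Prime n ∧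
    (1 - ε) * (n : ℝ) <
      (((Finset.range n).filter (fun a => a ^ (n - 1) ≡ 1 [MOD n])).card : ℝ) := by
  classical
  obtain ⟨S, hS2, hSp, hSd, hSs⟩ := agp (ε / 2) (by positivity) N
  have hprime : ∀ p ∈ S, p.Prime := fun p hp => (hSp p hp).1
  set n := ∏ p ∈ S, p with hn
  obtain ⟨p, hp, q, hq, hpq⟩ := one_lt_card.1 (by omega : 1 < S.card)
  have hn0 : 0 < n := prod_pos fun p hp => (hprime p hp).pos
  have hpn : p ∣ n := dvd_prod_of_mem _ hp
  have hqn : q ∣ n := dvd_prod_of_mem _ hq
  have hple : p ≤ n := Nat.le_of_dvd hn0 hpn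
  have h1n : 1 < n := lt_of_lt_of_le (hprime p hp).one_lt hple
  refine ⟨n, lt_of_lt_of_le (hSp p hp).2 hple, h1n, ?_, ?_⟩
  · intro h
    have h1 := (Nat.prime_dvd_prime_iff_eq (hprime p hp) h).1 hpn
    have h2 := (Nat.prime_dvd_prime_iff_eq (hprime q hq) h).1 hqn
    exact hpq (h1.trans h2.symm)
  · have hsub : (range n).filter (fun a => Nat.Coprime n a) ⊆
        (range n).filter (fun a => a ^ (n - 1) ≡ 1 [MOD n]) := by
      intro a ha
      rw [mem_filter] at ha ⊢
      refine ⟨ha.1, ?_⟩
      have ha0 : 0 < a := by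
        rcases Nat.eq_zero_or_pos a with h0 | h0
        · exfalso
          rw [h0, Nat.coprime_zero_right] at ha
          omega
        · exact h0
      exact pow_pred_modEq hprime hSd ha0 ha.2.symm
    have hcard := card_le_card hsub
    rw [← Nat.totient_eq_card_coprime] at hcard
    have htot : (n.totient : ℝ) = n * ∏ p ∈ S, (1 - (1 : ℝ) / p) := by
      have h1 : n.totient = ∏ p ∈ S, (p - 1) := by
        have h2 : ∀ V : Finset ℕ, (∀ p ∈ V, p.Prime) → (∏ p ∈ V, p).totient = ∏ p ∈ V, (p - 1) := by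
          intro V
          induction V using Finset.induction_on with
          | empty => intro _; simp
          | insert a s ha ih =>
            intro hV
            have hap := hV a (mem_insert_self _ _)
            rw [prod_insert ha, prod_insert ha, Nat.totient_mul, Nat.totient_prime hap,
              ih fun p hp => hV p (mem_insert_of_mem hp)]
            apply Nat.Coprime.prod_right
            intro r hr
            rw [Nat.coprime_primes hap (hV r (mem_insert_of_mem hr))]
            rintro rfl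
            exact ha hr
        exact h2 S hprime
      rw [h1, hn, Nat.cast_prod, Nat.cast_prod, ← prod_mul_distrib]
      apply prod_congr rfl
      intro p hp
      have h3 := (hprime p hp).one_lt
      have h4 : (0 : ℝ) < p := by exact_mod_cast (hprime p hp).pos
      rw [Nat.cast_sub h3.le]
      field_simp
      simp
    have hge := prod_one_sub_ge S (fun p => (1 : ℝ) / p) (fun p _ => by positivity)
      (fun p hp => by
        have h4 : (1 : ℝ) ≤ p := by exact_mod_cast (hprime p hp).one_lt.le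
        rw [div_le_one (by linarith)]; exact h4)
    have hn' : (0 : ℝ) < n := by exact_mod_cast hn0
    calc (1 - ε) * (n : ℝ) < n * (1 - ε / 2) := by nlinarith
      _ ≤ n * ∏ p ∈ S, (1 - (1 : ℝ) / p) := by
          apply mul_le_mul_of_nonneg_left _ hn'.le
          linarith
      _ = (n.totient : ℝ) := htot.symm
      _ ≤ _ := by exact_mod_cast hcard

end Pool.Agent.N919.AGP
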