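import Pool.Agent.TH76.LehP.Range

set_option autoImplicit false

/-!
A positive proportion of the primes `q ≤ t` are such that `q - 1` has no prime factor beyond
`t ^ (1 - κ)`.
-/

namespace Pool.Agent.N919.AGP

open Finset Filter

open Classical in
/-- the primes `q ≤ t` larger than `t ^ (1 - κ / 4)` for which `q - 1` is `t ^ (1 - κ)`-smooth -/
noncomputable def QQ (κ : ℝ) (t : ℕ) : Finset ℕ :=
  (Icc 1 t).filter (fun q => q.Prime ∧ (t : ℝ) ^ (1 - κ / 4) < (q : ℝ) ∧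
    ∀ r : ℕ, r.Prime → r ∣ q - 1 → r ≤ ⌊(t : ℝ) ^ (1 - κ)⌋₊)

lemma mem_QQ {κ : ℝ} {t q : ℕ} : q ∈ QQ κ t ↔ q ≤ t ∧ q.Prime ∧ (t : ℝ) ^ (1 - κ / 4) < (q : ℝ) ∧
    ∀ r : ℕ, r.Prime → r ∣ q - 1 → r ≤ ⌊(t : ℝ) ^ (1 - κ)⌋₊ := by
  classical
  unfold QQ
  rw [mem_filter, mem_Icc]
  constructor
  · rintro ⟨⟨_, h2⟩, h3⟩; exact ⟨h2, h3⟩
  · rintro ⟨h2, h3⟩; exact ⟨⟨h3.1.pos, h2⟩, h3⟩

theorem smooth : ∃ κ : ℝ, 0 < κ ∧ κ ≤ 1 / 4 ∧ ∃ T : ℕ, ∀ t : ℕ, T ≤ t →
    (1 / 8) * (t : ℝ) ≤ (QQ κ t).card * Real.log t := by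
  classical
  obtain ⟨C, hC, hfar⟩ := Pool.Agent.TH76.LehP.far_part
  obtain ⟨T1, hT1⟩ := Pool.Agent.TH76.LehP.cheb_lower
  obtain ⟨κ, hκ⟩ : ∃ κ : ℝ, κ = min (1 / 4) (3 / (32 * C)) := ⟨_, rfl⟩
  have hκ0 : 0 < κ := by rw [hκ]; positivity
  have hκ4 : κ ≤ 1 / 4 := by rw [hκ]; exact min_le_left _ _
  have hκC : C * κ ≤ 3 / 32 := by
    have h1 : κ ≤ 3 / (32 * C) := by rw [hκ]; exact min_le_right _ _
    calc C * κ ≤ C * (3 / (32 * C)) := mul_le_mul_of_nonneg_left h1 hC.le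
      _ = 3 / 32 := by field_simp
  have hlog : Tendsto (fun t : ℕ => Real.log (t : ℝ)) atTop atTop :=
    Real.tendsto_log_atTop.comp tendsto_natCast_atTop_atTop
  have hev2 : ∀ᶠ t : ℕ in atTop, 16 * Real.log t ≤ (t : ℝ) ^ (κ / 4) := by
    have h := isLittleO_log_rpow_atTop (show 0 < κ / 4 by positivity)
    have h2 := h.def (show (0 : ℝ) < 1 / 16 by norm_num)
    have h3 := (tendsto_natCast_atTop_atTop (R := ℝ)).eventually h2
    filter_upwards [h3, hlog.eventually_ge_atTop 0] with t ht ht0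
    rw [Real.norm_eq_abs, Real.norm_eq_abs, abs_of_nonneg ht0,
      abs_of_nonneg (by positivity : (0 : ℝ) ≤ (t : ℝ) ^ (κ / 4))] at ht
    linarith
  have hev : ∀ᶠ t : ℕ in atTop, T1 ≤ t ∧ 256 ≤ t ∧ 16 * C ≤ Real.log t ∧
      16 * Real.log t ≤ (t : ℝ) ^ (κ / 4) := by
    filter_upwards [eventually_ge_atTop T1, eventually_ge_atTop 256,
      hlog.eventually_ge_atTop (16 * C), hev2] with t h1 h2 h3 h4
    exact ⟨h1, h2, h3, h4⟩
  obtain ⟨T, hT⟩ := eventually_atTop.mp hev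
  refine ⟨κ, hκ0, hκ4, T, fun t ht => ?_⟩
  obtain ⟨ht1, ht2, hl1, hl2⟩ := hT t ht
  have ht' : (256 : ℝ) ≤ t := by exact_mod_cast ht2
  have ht0 : (0 : ℝ) < t := by linarith
  have hL : 0 < Real.log t := Real.log_pos (by linarith)
  set y : ℕ := ⌊(t : ℝ) ^ (1 - κ)⌋₊ with hy
  have hy1 : (1 : ℝ) ≤ (t : ℝ) ^ (1 - κ) := Real.one_le_rpow (by linarith) (by linarith)
  have hyt : y ≤ t := by
    apply Nat.floor_le_of_le
    calc (t : ℝ) ^ (1 - κ) ≤ (t : ℝ) ^ (1 : ℝ) :=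
          Real.rpow_le_rpow_of_exponent_le (by linarith) (by linarith)
      _ = t := Real.rpow_one _
  have hy2 : (t : ℝ) ^ (1 - κ) ≤ 2 * (y : ℝ) := by
    have h1 : (t : ℝ) ^ (1 - κ) < (y : ℝ) + 1 := Nat.lt_floor_add_one _
    have h2 : (1 : ℝ) ≤ y := by
      have : 1 ≤ y := Nat.le_floor (by simpa using hy1)
      exact_mod_cast this
    linarith
  have hfar' := hfar κ hκ0 hκ4 t y ht2 hyt hy2
  -- the bad primes
  set B : Finset ℕ := ((Ioc y t).filter (fun q => q.Prime)).biUnion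
    (fun r => Pool.Agent.TH76.LehP.P1 t r) with hB
  set S : Finset ℕ := Icc 1 ⌊(t : ℝ) ^ (1 - κ / 4)⌋₊ with hS
  have hcov : Pool.Agent.TH76.LehP.PP t ⊆ QQ κ t ∪ (B ∪ S) := by
    intro p hp
    rw [Pool.Agent.TH76.LehP.mem_PP] at hp
    rw [mem_union, mem_union]
    by_cases h1 : (t : ℝ) ^ (1 - κ / 4) < (p : ℝ)
    · by_cases h2 : ∀ r : ℕ, r.Prime → r ∣ p - 1 → r ≤ y
      · left
        rw [mem_QQ]
        exact ⟨hp.1, hp.2, h1, h2⟩
      · right; left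
        push Not at h2
        obtain ⟨r, hr, hrd, hry⟩ := h2
        rw [hB, mem_biUnion]
        refine ⟨r, ?_, ?_⟩
        · rw [mem_filter, mem_Ioc]
          have h3 := Nat.le_of_dvd (by have := hp.2.two_le; omega) hrd
          exact ⟨⟨hry, by omega⟩, hr⟩
        · rw [Pool.Agent.TH76.LehP.mem_P1]
          exact ⟨hp.1, hp.2, hrd⟩
    · right; right
      rw [hS, mem_Icc]
      exact ⟨hp.2.pos, Nat.le_floor (not_lt.1 h1)⟩
  have hcard : ((Pool.Agent.TH76.LehP.PP t).card : ℝ) ≤ (QQ κ t).card + (B.card + S.card) := by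
    have h1 := (card_le_card hcov).trans (card_union_le _ _)
    have h2 := card_union_le B S
    exact_mod_cast h1.trans (Nat.add_le_add_left h2 _)
  have hBcard : (B.card : ℝ) * Real.log t ≤ (1 / 4) * t := by
    have h1 : (B.card : ℝ) ≤ ∑ q ∈ (Ioc y t).filter (fun q => q.Prime),
        ((Pool.Agent.TH76.LehP.P1 t q).card : ℝ) := by
      have := card_biUnion_le (s := (Ioc y t).filter (fun q => q.Prime))
        (t := fun r => Pool.Agent.TH76.LehP.P1 t r)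
      exact_mod_cast this
    have h2 : ∀ q ∈ (Ioc y t).filter (fun q => q.Prime), (3 / 4) * Real.log t ≤ Real.log q := by
      intro q hq
      rw [mem_filter, mem_Ioc] at hq
      have h3 : (t : ℝ) ^ (1 - κ) < (q : ℝ) := by
        have h4 : (t : ℝ) ^ (1 - κ) < (y : ℝ) + 1 := Nat.lt_floor_add_one _
        have h5 : ((y + 1 : ℕ) : ℝ) ≤ q := by exact_mod_cast hq.1.1
        push_cast at h5
        linarith
      have h6 := Real.log_le_log (by positivity) h3.le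
      rw [Real.log_rpow ht0] at h6
      nlinarith
    have h3 : (3 / 4) * Real.log t * (∑ q ∈ (Ioc y t).filter (fun q => q.Prime),
        ((Pool.Agent.TH76.LehP.P1 t q).card : ℝ)) ≤ C * (κ * t + t / Real.log t) := by
      refine le_trans ?_ hfar'
      rw [mul_sum]
      exact sum_le_sum fun q hq => mul_le_mul_of_nonneg_right (h2 q hq) (by positivity)
    have h4 : C * (κ * t + t / Real.log t) ≤ (3 / 32) * t + (1 / 16) * t := by
      have h5 : C * (t / Real.log t) ≤ (1 / 16) * t := by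
        rw [← mul_div_assoc, div_le_iff₀ hL]
        nlinarith
      nlinarith
    nlinarith
  have hScard : (S.card : ℝ) * Real.log t ≤ (1 / 16) * t := by
    rw [hS, Nat.card_Icc, Nat.add_sub_cancel]
    have h1 : ((⌊(t : ℝ) ^ (1 - κ / 4)⌋₊ : ℕ) : ℝ) ≤ (t : ℝ) ^ (1 - κ / 4) :=
      Nat.floor_le (by positivity)
    have h2 : (t : ℝ) ^ (1 - κ / 4) * (t : ℝ) ^ (κ / 4) = t := by
      rw [← Real.rpow_add ht0]
      simp
    have h3 : (0 : ℝ) ≤ (t : ℝ) ^ (1 - κ / 4) := by positivity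
    nlinarith [mul_le_mul_of_nonneg_left hl2 h3, mul_le_mul_of_nonneg_right h1 hL.le]
  have hmain := hT1 t ht1
  have h5 := mul_le_mul_of_nonneg_right hcard hL.le
  nlinarith

end Pool.Agent.N919.AGP
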